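import Mathlib

open Matrix Finset

namespace H11.QCol

/-- `G` has a quantum `c`-colouring in some dimension `d ≥ 1`. -/
def QColorable {V : Type} (G : SimpleGraph V) (c : ℕ) : Prop :=
  ∃ d : ℕ, 1 ≤ d ∧ ∃ P : V → Fin c → Matrix (Fin d) (Fin d) ℂ,
    (∀ v i, P v i * P v i = P v i ∧ (P v i)ᴴ = P v i) ∧ (∀ v, ∑ i, P v i = 1) ∧
      ∀ v w, G.Adj v w → ∀ i, P v i * P w i = 0

/-- The quantum chromatic number: the least `c ≥ 1` with a quantum `c`-colouring. -/
noncomputable def chiq {V : Type} (G : SimpleGraph V) : ℕ∞ :=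
  ⨅ (c : ℕ) (_ : 1 ≤ c ∧ QColorable G c), (c : ℕ∞)

def adj (v w : Fin 63) : Bool := Nat.testBit 0x38fc3f738118fc0196759dd4c452f405555d57655129d80d347d1dc5c4637060bc6f1e61c31b9142b56d5aa54a56a3099ce72d31a52b492336cda664b1999485b56d2d25a52b3207b1ec3c278c4e1bc09bd8784f07625b425b69692d16a4d98939b4cc964cca7321b39698d26a555a855ab54a9552ac7a0c78f30e1b235c5961a3b8b88b91b55542abb2a89b135cd3033ba988ba167e3801fb9c08f81c6f3d8099e133e1856db68255a4aba28b679b09333266c319cf39219a633649356daa85552aaa8a71e78e0ccc39930cf17a3960e2e1d145d56ab542caa5924b7333b306a62d1455f81fb80e703c186f685b96e02de10c3da95b56c0ada11476ccdb36826d2124dc7e3b8e071c214587ff87e00fc02187c861384ce099cf3f4924a92ac255aebe4c324c9989339e7b186318cd219adb75492a4aaa8556bae70c390e660cce79c742e0b87160e75d954aa2a96542d6db4666298b5306b5d703f03c0f380e73cc4bd20b7816e079e92b522b6856c175d499929b4936836db1c0e3c70b8e075d7c003ff00fe00f3c8965be9102dde03e2555ba910addc0bc934dac9126dd81ba38e3871171dd03b781f801e1fc3c07affc00003fff800f9da691a440b77be036aa92a442b77bc05b2c932449b77b8071c711c45c777b001f81e0787f0f7a0000ffc00fffe0f80000007ffffffe000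 (63 * v + w)

def vec (v : Fin 63) (k : ℕ) : ℤ := ((0x6d924b6cb24b65b24b2db24b6c964b65964b2d964b64b64b2cb64b25b64b6c92cb6592cb2d92cb64b2cb2cb2cb25b2cb6496cb2c96cb2596cb24b6cb6c925b65925b2d925b64b25b2cb25b25b25b64965b2c965b25965b24b65b6492db2c92db2592db24b2db2496db1124920a24924224920944924144924844920928924128924828924908920925124125124825124905124921120924a24124a24824a24904a24920a2492422092494412494482494490494492094492414492484 >>> (3 * (8 * v + k)) % 8 : ℕ) : ℤ) - 2

def U (v : Fin 63) (i k : Fin 8) : ℤ :=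
  (if Nat.testBit 0x4d278be153399500 (8 * i + k) then -1 else 1) * vec v (i.1 ^^^ k.1)

def G : SimpleGraph (Fin 63) where
  Adj v w := adj v w
  symm := ⟨by decide +kernel⟩
  loopless := ⟨by decide +kernel⟩

instance : DecidableRel G.Adj := fun v w => inferInstanceAs (Decidable (adj v w = true))

theorem s1 : ∀ v, #{w | adj v w} = 30 := by decide +kernel
theorem s2 : ∀ v w, v ≠ w → #{u | adj v u ∧ adj w u} = if adj v w then 13 else 15 := by
  decide +kernel
theorem u1 : ∀ v i, U v i ⬝ᵥ U v i = 8 := by decide +kernel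
theorem u2 : ∀ v k l, ∑ i, U v i k * U v i l = if k = l then 8 else 0 := by decide +kernel
theorem u3 : ∀ v w, adj v w → ∀ i, U v i ⬝ᵥ U w i = 0 := by decide +kernel
theorem u4 : ∀ v, ∑ k, U v 0 k = 0 := by decide +kernel
theorem u5 : ∀ v w, ¬ adj v w → (4 ∣ U v 0 ⬝ᵥ U w 0) ∧
    ((U v 0 ⬝ᵥ U w 0 / 4 : ℤ) : ZMod 2) = if v = w then 0 else 1 := by decide +kernel

theorem srg : G.IsSRGWith 63 30 13 15 := by
  have h : ∀ v w, v ≠ w → Fintype.card (G.commonNeighbors v w) = if adj v w then 13 else 15 :=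
    fun v w h => by rw [← s2 v w h, ← Fintype.card_subtype]; rfl
  refine ⟨by simp, fun v => ?_, fun v w a => ?_, fun v w n a => ?_⟩
  · rw [← s1 v, ← SimpleGraph.card_neighborSet_eq_degree, ← Fintype.card_subtype]; rfl
  · exact (h v w a.ne).trans (if_pos a)
  · exact (h v w n).trans (if_neg a)

theorem qcol : QColorable G 8 := by
  let u : Fin 63 → Fin 8 → Fin 8 → ℂ := fun v i k => U v i k
  have hu : ∀ v w i, u v i ⬝ᵥ u w i = (U v i ⬝ᵥ U w i : ℤ) := by simp [u, dotProduct]
  refine ⟨8, by norm_num, fun v i => (1 / 8 : ℂ) • vecMulVec (u v i) (u v i),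
    fun v i => ⟨?_, ?_⟩, fun v => ?_, fun v w h i => ?_⟩
  · simp only [smul_mul_smul_comm, vecMulVec_mul_vecMulVec, hu, u1, vecMulVec_smul, smul_smul]
    norm_num
  · ext k l; simp [u, vecMulVec_apply, mul_comm]
  · ext k l
    have := congrArg (Int.cast : ℤ → ℂ) (u2 v k l)
    push_cast at this
    simp only [Matrix.sum_apply, Matrix.smul_apply, vecMulVec_apply, smul_eq_mul, ← mul_sum, u,
      this, Matrix.one_apply]
    split_ifs <;> simp
  · simp [vecMulVec_mul_vecMulVec, hu, u3 v w h i]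

theorem ncol : ¬ G.Colorable 8 := by
  rintro ⟨C⟩
  obtain ⟨y, hy⟩ := Fintype.exists_lt_card_fiber_of_mul_lt_card (n := 7) C (by simp)
  obtain ⟨f⟩ := Function.Embedding.nonempty_of_card_le (α := Fin 8) (β := {x // C x = y})
    (by rw [Fintype.card_subtype, Fintype.card_fin]; exact hy)
  have hf : ∀ a b, ¬ adj (f a) (f b) := fun a b h => C.valid h ((f a).2.trans (f b).2.symm)
  let X : Matrix (Fin 8) (Fin 8) ℤ := .of fun a => U (f a) 0
  let g : Matrix (Fin 8) (Fin 8) ℤ := .of fun a b => U (f a) 0 ⬝ᵥ U (f b) 0 / 4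
  have h1 : X.det = 0 := exists_mulVec_eq_zero_iff.1 ⟨1, one_ne_zero, funext fun a => by
    simpa [X, mulVec, dotProduct] using u4 (f a)⟩
  have h2 : X * Xᵀ = (4 : ℤ) • g := by
    ext a b
    exact (Int.mul_ediv_cancel' (u5 _ _ (hf a b)).1).symm
  have h3 : g.det = 0 := by
    have := congrArg det h2
    rw [det_mul, det_smul, h1] at this
    simpa using this
  have h4 : (Int.castRingHom (ZMod 2)).mapMatrix g = .of fun a b => if a = b then 0 else 1 := by
    ext a b
    simpa [Subtype.val_inj, g] using (u5 _ _ (hf a b)).2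
  have h5 : (.of fun a b => if a = b then 0 else 1 : Matrix (Fin 8) (Fin 8) (ZMod 2)) *
      (.of fun a b => if a = b then 0 else 1) = 1 := by decide +kernel
  have h6 := congrArg det h5
  rw [det_mul, ← h4, ← RingHom.map_det, h3] at h6
  simp at h6

end H11.QCol

open H11.QCol

theorem Pool.Agent.Results.MP_75a6b7_co.Exists.result :
    ∃ (G : SimpleGraph (Fin 63)) (_ : DecidableRel G.Adj),
      G.IsSRGWith 63 30 13 15 ∧ chiq G < G.chromaticNumber :=
  ⟨G, inferInstance, srg, (iInf₂_le 8 ⟨by norm_num, qcol⟩).trans_lt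
    (lt_of_not_ge fun h => ncol (SimpleGraph.chromaticNumber_le_iff_colorable.1 h))⟩
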